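import Pool.Agent.MP_82452b_an.H8.TData
import Pool.Agent.MP_755d6b_an.H98.Rigid

/-! The symmetries of the tower inside the group von Neumann algebra. -/

namespace Pool.Agent.MP_82452b_an.H15

open Filter Topology Pool.Agent.MP_755d6b_an.H98 Pool.Agent.MP_82452b_an.H8
open scoped InnerProductSpace Classical

variable {G : Type} [Group G]

/-- The elements of the group algebra supported in `Λ`. -/
noncomputable def NL (Λ : Subgroup G) : VonNeumannAlgebra (L2 G) :=
  vnComm (Set.range rho ∪ {ind (Λ : Set G)})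

variable {Λ : Subgroup G} {y : L2 G →L[ℂ] L2 G}

theorem mem_NL' : y ∈ NL Λ ↔ y ∈ LG G ∧ ind (Λ : Set G) * y = y * ind (Λ : Set G) := by
  rw [NL, mem_vnComm, mem_LG]
  · simp [or_imp, forall_and, and_comm]
  · rintro r (h | rfl)
    · exact Or.inl (rho_range_star r h)
    · exact Or.inr (star_ind _)

omit [Group G] in
theorem ind_dl (D : Set G) (g : G) : ind D (dl g) = if g ∈ D then dl g else 0 :=
  L2.ext (funext fun x => by
    rw [ind_apply, dl_apply]
    by_cases h : x = g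
    · subst h; split_ifs <;> simp_all [dl_apply]
    · split_ifs <;> simp_all [dl_apply])

theorem apply_dl (hy : y ∈ LG G) (g x : G) : y (dl g) x = y (dl 1) (x * g⁻¹) := by
  rw [← rho_apply, ← mul_apply_eq_comp, mem_LG.1 hy, mul_apply_eq_comp, rho_dl, one_mul, inv_inv]

theorem mem_NL : y ∈ NL Λ ↔ y ∈ LG G ∧ ∀ x, x ∉ Λ → y (dl 1) x = 0 := by
  rw [mem_NL']
  refine and_congr_right fun hy => ⟨fun h x hx => ?_, fun h => op_ext_dl fun g => ?_⟩
  · have := congrArg (fun T : L2 G →L[ℂ] L2 G => T (dl 1) x) h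
    simp only [mul_apply_eq_comp, ind_dl, SetLike.mem_coe, one_mem, if_true, ind_apply,
      hx, if_false] at this
    exact this.symm
  · refine L2.ext (funext fun x => ?_)
    simp only [mul_apply_eq_comp, ind_dl, SetLike.mem_coe, ind_apply]
    split_ifs with h1 h2 h2
    · rfl
    · rw [apply_dl hy, h _ fun h3 => h2 (by simpa using mul_mem (inv_mem h3) h1), map_zero]; rfl
    · rw [apply_dl hy, h _ fun h3 => h1 (by simpa using mul_mem h3 h2)]
    · rw [map_zero]; rfl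

theorem NL_le (h : y ∈ NL Λ) : y ∈ LG G := (mem_NL.1 h).1

theorem NL_mono {Λ' : Subgroup G} (hΛ : Λ ≤ Λ') (h : y ∈ NL Λ) : y ∈ NL Λ' :=
  mem_NL.2 ⟨NL_le h, fun x hx => (mem_NL.1 h).2 x fun h' => hx (hΛ h')⟩

theorem lam_mem_NL {g : G} (hg : g ∈ Λ) : lam g ∈ NL Λ :=
  mem_NL.2 ⟨lam_mem g, fun x hx => by
    rw [lam_dl, mul_one, dl_apply, if_neg fun h : x = g => hx (h ▸ hg)]⟩

theorem lam_comm {d : G} (hd : ∀ g ∈ Λ, g * d = d * g) (h : y ∈ NL Λ) : Commute (lam d) y := by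
  refine sub_eq_zero.1 (isTV_LG.sep _ (sub_mem (mul_mem (lam_mem d) (NL_le h))
    (mul_mem (NL_le h) (lam_mem d))) (norm_eq_zero.1 ?_))
  rw [← norm_cj_hat_sub (NL_le h), norm_eq_zero, sub_eq_zero]
  refine L2.ext (funext fun x => ?_)
  rw [cj_apply]
  by_cases hx : x ∈ Λ
  · rw [mul_assoc, hd x hx, inv_mul_cancel_left]
  · rw [(mem_NL.1 h).2 x hx, (mem_NL.1 h).2 _ fun h1 => hx ?_]
    have := hd _ h1
    rw [← mul_assoc, ← mul_assoc, mul_inv_cancel, one_mul] at this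
    rwa [mul_right_cancel this] at h1

theorem tau_lam {g : G} (hg : g ∉ Λ) (h : y ∈ NL Λ) : vecState (dl 1) (y * lam g) = 0 := by
  rw [vecState_apply, inner_dl, mul_apply_eq_comp, lam_dl, apply_dl (NL_le h)]
  exact (mem_NL.1 h).2 _ (by simpa using hg)

theorem gap_NL (hΛ : ∀ k ∈ Λ, k ≠ 1 → {q | ∃ g ∈ Λ, g⁻¹ * k * g = q}.Infinite) (h : y ∈ NL Λ) :
    ∃ g ∈ Λ, ‖y (dl 1)‖ ^ 2 - ‖⟪dl 1, y (dl 1)⟫_ℂ‖ ^ 2 ≤
      4 * ‖(lam g * y - y * lam g) (dl 1)‖ ^ 2 := by
  by_contra hcon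
  push Not at hcon
  set d2 := ‖y (dl 1)‖ ^ 2 - ‖⟪dl 1, y (dl 1)⟫_ℂ‖ ^ 2 with hd2
  have hpos : 0 < d2 := lt_of_le_of_lt (by positivity) (hcon _ (one_mem _))
  have hsq := Real.sq_sqrt hpos.le
  obtain ⟨η, hη1, hη2⟩ := exists_invariant_near (fun g : Λ => cj (g : G))
    (fun g h ξ => by rw [Subgroup.coe_mul, cj_mul, mul_apply_eq_comp]) (fun g => norm_cj _)
    (fun ξ => by rw [Subgroup.coe_one, cj_one, one_apply_eq_self]) (y (dl 1)) (√d2 / 2) (fun g => by
      rw [norm_cj_hat_sub (NL_le h)]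
      have h1 := hcon _ g.2
      refine (pow_le_pow_iff_left₀ (norm_nonneg _) (by positivity) two_ne_zero).1 ?_
      rw [div_pow, hsq]
      linarith)
  have h2 : ind (Λ : Set G) η = ind (Λ : Set G) η 1 • dl 1 := eq_smul_dl fun k hk => by
    rw [ind_apply]
    split_ifs with h1
    · refine apply_eq_zero_of_infinite η (hΛ k h1 hk) ?_
      rintro _ ⟨g, hg, rfl⟩
      rw [← cj_apply, hη1 ⟨g, hg⟩]
    · rfl
  have h5 : ind (Λ : Set G) (y (dl 1)) = y (dl 1) := by
    rw [← mul_apply_eq_comp, (mem_NL'.1 h).2, mul_apply_eq_comp, ind_dl,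
      if_pos (show (1 : G) ∈ (Λ : Set G) from one_mem Λ)]
  have h6 := (norm_ind_le (Λ : Set G) _).trans hη2
  rw [map_sub, h5] at h6
  have h3 := norm_sub_inner_smul_sq (norm_dl (1 : G)) (y (dl 1)) (ind (Λ : Set G) η 1)
  rw [← h2, norm_sub_rev] at h3
  have h4 := pow_le_pow_left₀ (norm_nonneg _) h6 2
  rw [div_pow, hsq] at h4
  nlinarith [sq_nonneg ‖ind (Λ : Set G) η 1 - ⟪dl 1, y (dl 1)⟫_ℂ‖]

/-- Self-adjoint unitaries. -/
structure Sy {A : Type*} [Monoid A] [Star A] (u : A) : Prop where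
  sa : star u = u
  sq : u * u = 1

theorem Sy.mul {A : Type*} [Monoid A] [StarMul A] {u v : A} (hu : Sy u) (hv : Sy v)
    (h : Commute u v) : Sy (u * v) :=
  ⟨by rw [star_mul, hu.sa, hv.sa, h.eq], by rw [h.symm.mul_mul_mul_comm, hu.sq, hv.sq, mul_one]⟩

theorem Sy.norm_le {H : Type} [NormedAddCommGroup H] [InnerProductSpace ℂ H] [CompleteSpace H]
    {u : H →L[ℂ] H} (hu : Sy u) : ‖u‖ ≤ 1 := by
  have h1 : ‖star u * u‖ = ‖u‖ * ‖u‖ := CStarRing.norm_star_mul_self
  rw [hu.sa, hu.sq] at h1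
  have h2 : ‖(1 : H →L[ℂ] H)‖ ≤ 1 := ContinuousLinearMap.norm_id_le
  nlinarith [norm_nonneg u]

/-- One step of the construction of two almost anticommuting symmetries. -/
theorem step_alg {R : Type*} [Ring R] {u v P f A B : R} (hu : u * u = 1) (hP : P * P = P)
    (huP : u * P = P) (hvP : v * P = P) (huv : u * v + v * u = P + P) (cu : Commute u P)
    (cv : Commute v P) (hf : f * f = f) (fu : Commute f u) (fv : Commute f v) (fP : Commute f P)
    (fA : Commute f A) (fB : Commute f B) (Au : Commute A u) (Av : Commute A v) (AP : Commute A P)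
    (Bu : Commute B u) (BP : Commute B P) (hA : A * A = 1)
    (hAB : f * (A * B + B * A) = 0) {q : R} (hq : q = P * f) :
    (u - q + q * A) * (u - q + q * A) = 1 ∧ (P - q) * (P - q) = P - q ∧
      (u - q + q * A) * (P - q) = P - q ∧ (P - q) * (u - q + q * A) = P - q ∧
      (u - q + q * A) * (v - q + q * B) + (v - q + q * B) * (u - q + q * A) = P - q + (P - q) := by
  have Pq : P * q = q := by rw [hq, ← mul_assoc, hP]
  have qP : q * P = q := by rw [hq, mul_assoc, fP.eq, ← mul_assoc, hP]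
  have qq : q * q = q := by nth_rw 2 [hq]; rw [← mul_assoc, qP, hq, mul_assoc, hf]
  have uq : u * q = q := by rw [hq, ← mul_assoc, huP]
  have vq : v * q = q := by rw [hq, ← mul_assoc, hvP]
  have qu : q * u = q := by rw [hq, mul_assoc, fu.eq, ← mul_assoc, ← cu.eq, huP]
  have qv : q * v = q := by rw [hq, mul_assoc, fv.eq, ← mul_assoc, ← cv.eq, hvP]
  have Aq : A * q = q * A := hq ▸ (AP.mul_right fA.symm).eq
  have Bq : B * q = q * B := hq ▸ (BP.mul_right fB.symm).eq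
  have a1 : ∀ w, w * q = q → ∀ X, w * (q * X) = q * X := fun w h X => by rw [← mul_assoc, h]
  have a2 : ∀ w X, q * w = q → Commute X w → q * X * w = q * X := fun w X h c => by
    rw [mul_assoc, c.eq, ← mul_assoc, h]
  have a3 : ∀ X Y, X * q = q * X → q * X * (q * Y) = q * (X * Y) := fun X Y h => by
    rw [← mul_assoc, a2 q X qq h, mul_assoc]
  have a4 : q * (A * B) + q * (B * A) = 0 := by rw [← mul_add, hq, mul_assoc, hAB, mul_zero]
  have Pu : P * u = P := by rw [← cu.eq, huP]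
  simp only [mul_add, add_mul, mul_sub, sub_mul, a3 A A Aq, a3 A B Aq, a3 B A Bq, a1 u uq, a1 v vq,
    a1 q qq, a1 P Pq, a2 u A qu Au, a2 v A qv Av, a2 u B qu Bu, a2 q A qq Aq, a2 q B qq Bq,
    a2 P A qP AP, hu, hP, huP, Pu, Pq, qP, qq, uq, vq, qu, qv, hA, mul_one]
  refine ⟨by abel, by abel, by abel, by abel, ?_⟩
  rw [eq_sub_of_add_eq huv, eq_neg_of_add_eq_zero_left a4]
  abel

variable {W : Type} [LinearOrder W] (T : TData W G)

/-- The invariant of the construction at the bottom of the tower. -/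
structure Inv (n : ℕ) (u v P : L2 G →L[ℂ] L2 G) : Prop where
  um : u ∈ NL (T.Λ n)
  vm : v ∈ NL (T.Λ n)
  Pm : P ∈ NL (T.Λ n)
  us : Sy u
  vs : Sy v
  Ps : star P = P
  PP : P * P = P
  uP : u * P = P
  vP : v * P = P
  Pu : P * u = P
  Pv : P * v = P
  uv : u * v + v * u = P + P
  tr : vecState (dl 1) P = (1 / 2) ^ n

theorem inv_step {n : ℕ} {u v P : L2 G →L[ℂ] L2 G} (h : Inv T n u v P) :
    ∃ u' v' P', Inv T (n + 1) u' v' P' := by
  set a := T.a n
  set b := T.b n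
  have ha : a * a = 1 := by rw [← sq, T.a_sq]
  have hb : b * b = 1 := by rw [← sq, T.b_sq]
  set z := (a * b) ^ 2 with hz
  have zz : z * z = 1 := by rw [hz, ← pow_add, T.ab_four]
  have zab : z * (a * b) = b * a := by
    have : z * (a * b) * (a * b) = b * a * (a * b) := by
      rw [mul_assoc, ← sq, zz, mul_assoc, ← mul_assoc a, ha, one_mul, hb]
    exact mul_right_cancel this
  have zba : z * (b * a) = a * b := by rw [← zab, ← mul_assoc, zz, one_mul]
  have zb : z * b = b * z := by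
    have : z * b * a = b * z * a := by
      rw [mul_assoc, zba, mul_assoc b]
      have e : z * a * (b * a * b) = 1 := by rw [← zz, hz, sq]; simp only [mul_assoc]
      have e2 : b * (a * b) * (b * a * b) = 1 := by
        simp only [mul_assoc, ← mul_assoc b b, hb, one_mul, ← mul_assoc a a, ha]
      rw [mul_right_cancel (e.trans e2.symm), ← mul_assoc, hb, one_mul]
    exact mul_right_cancel this
  have za : z * a = a * z := by
    have : z * a * b = a * z * b := by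
      rw [mul_assoc a, zb, hz, sq]; simp only [mul_assoc]
    exact mul_right_cancel this
  have zc : ∀ g ∈ T.Λ n, g * z = z * g := fun g hg =>
    (((show Commute g a from T.a_comm n g hg).mul_right (T.b_comm n g hg)).pow_right 2).eq
  set f : L2 G →L[ℂ] L2 G := (1 / 2 : ℂ) • (1 - lam z) with hf
  have fc : ∀ y, Commute (lam z) y → Commute f y := fun y hy =>
    ((Commute.one_left y).sub_left hy).smul_left _
  have fA := fc (lam a) (by show _ = _; rw [← lam_mul, ← lam_mul, za])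
  have fB := fc (lam b) (by show _ = _; rw [← lam_mul, ← lam_mul, zb])
  have fu := fc u (lam_comm zc h.um)
  have fv := fc v (lam_comm zc h.vm)
  have fP := fc P (lam_comm zc h.Pm)
  have Ac : ∀ y ∈ NL (T.Λ n), Commute (lam a) y := fun y hy => lam_comm (T.a_comm n) hy
  have Bc : ∀ y ∈ NL (T.Λ n), Commute (lam b) y := fun y hy => lam_comm (T.b_comm n) hy
  have ff : f * f = f := by
    simp only [hf, smul_mul_assoc, mul_smul_comm, mul_sub, sub_mul, ← lam_mul, zz, lam_one, mul_one,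
      one_mul]
    module
  have fAB : f * (lam a * lam b + lam b * lam a) = 0 := by
    simp only [hf, smul_mul_assoc, mul_add, sub_mul, ← lam_mul, zab, zba, one_mul]
    module
  have sl : ∀ g : G, g * g = 1 → Sy (lam g) := fun g hg =>
    ⟨by rw [star_lam, inv_eq_of_mul_eq_one_right hg], by rw [← lam_mul, hg, lam_one]⟩
  have fs : star f = f := by simp [hf, (sl z zz).sa]
  have qs : star (P * f) = P * f := by rw [star_mul, fs, h.Ps, fP.eq]
  have cu : Commute u P := h.uP.trans h.Pu.symm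
  have cv : Commute v P := h.vP.trans h.Pv.symm
  obtain ⟨e1, e2, e3, e4, e5⟩ := step_alg h.us.sq h.PP h.uP h.vP h.uv cu cv ff fu fv fP fA fB
    (Ac u h.um) (Ac v h.vm) (Ac P h.Pm) (Bc u h.um) (Bc P h.Pm) (sl a ha).sq fAB rfl
  obtain ⟨e6, -, e7, e8, -⟩ := step_alg h.vs.sq h.PP h.vP h.uP ((add_comm _ _).trans h.uv) cv cu ff
    fv fu fP fB fA (Bc v h.vm) (Bc u h.um) (Bc P h.Pm) (Ac v h.vm) (Ac P h.Pm) (sl b hb).sq
    (by rw [add_comm]; exact fAB) rfl
  have up : ∀ y ∈ NL (T.Λ n), y ∈ NL (T.Λ (n + 1)) := fun y => NL_mono (T.Λ_mono n.le_succ)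
  have qm : P * f ∈ NL (T.Λ (n + 1)) := mul_mem (up P h.Pm) (smul_mem_vN _ (sub_mem (one_mem _)
    (lam_mem_NL (pow_mem (mul_mem (T.a_mem n) (T.b_mem n)) 2))))
  refine ⟨_, _, _, add_mem (sub_mem (up u h.um) qm) (mul_mem qm (lam_mem_NL (T.a_mem n))),
    add_mem (sub_mem (up v h.vm) qm) (mul_mem qm (lam_mem_NL (T.b_mem n))),
    sub_mem (up P h.Pm) qm, ⟨?_, e1⟩, ⟨?_, e6⟩, by rw [star_sub, qs, h.Ps], e2, e3, e7, e4, e8, e5, ?_⟩
  · rw [star_add, star_sub, star_mul (P * f), qs, h.us.sa,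
      (sl a ha).sa, ((Ac P h.Pm).mul_right fA.symm).eq]
  · rw [star_add, star_sub, star_mul (P * f), qs, h.vs.sa,
      (sl b hb).sa, ((Bc P h.Pm).mul_right fB.symm).eq]
  · rw [hf, mul_smul_comm, mul_sub, map_sub, map_smul, map_sub, mul_one, h.tr,
      tau_lam (T.z_notMem n) h.Pm, smul_eq_mul]
    ring

theorem exists_inv (n : ℕ) : ∃ u v P, Inv T n u v P := by
  induction n with
  | zero =>
    exact ⟨1, 1, 1, one_mem _, one_mem _, one_mem _, ⟨star_one _, one_mul _⟩, ⟨star_one _, one_mul _⟩,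
      star_one _, one_mul _, one_mul _, one_mul _, one_mul _, one_mul _, by rw [one_mul],
      by simpa using isTV_LG.isTrace.unital⟩
  | succ n ih =>
    obtain ⟨u, v, P, h⟩ := ih
    exact inv_step T h

/-- The symmetry attached to a level. -/
noncomputable def ss (γ : W) : L2 G →L[ℂ] L2 G :=
  (1 / 3 : ℂ) • (1 - (2 : ℂ) • lam (T.d γ) - (2 : ℂ) • lam (T.d γ)⁻¹)

theorem ss_sy (γ : W) : Sy (ss T γ) := by
  have h1 : T.d γ * T.d γ = (T.d γ)⁻¹ :=
    eq_inv_of_mul_eq_one_left (by rw [← T.d_cube γ, pow_three'])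
  have h2 : (T.d γ)⁻¹ * (T.d γ)⁻¹ = T.d γ := by rw [← mul_inv_rev, h1, inv_inv]
  constructor
  · simp only [ss, star_smul, star_sub, star_one, star_lam, inv_inv]
    simp only [star_div₀, star_one, star_ofNat]
    module
  · simp only [ss, smul_mul_assoc, mul_smul_comm, mul_sub, sub_mul, ← lam_mul, h1, h2, lam_one,
      mul_one, one_mul, mul_inv_cancel, inv_mul_cancel]
    module

theorem ss_mem {γ γ' : W} (h : γ < γ') : ss T γ ∈ NL (T.Qs γ') :=
  smul_mem_vN _ (sub_mem (sub_mem (one_mem _) (smul_mem_vN _ (lam_mem_NL (T.d_mem _ _ h))))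
    (smul_mem_vN _ (lam_mem_NL (inv_mem (T.d_mem _ _ h)))))

theorem ss_comm {γ : W} (h : y ∈ NL (T.Qs γ)) : Commute y (ss T γ) :=
  (((Commute.one_left y).sub_left ((lam_comm (T.d_comm γ) h).smul_left _)).sub_left
    ((lam_comm (fun g hg => (Commute.inv_right (T.d_comm γ g hg)).eq) h).smul_left _)).smul_left _
    |>.symm

theorem ss_tr {γ : W} (h : y ∈ NL (T.Qs γ)) :
    vecState (dl 1) (y * ss T γ) = vecState (dl 1) y / 3 := by
  simp only [ss, mul_smul_comm, mul_sub, map_smul, map_sub, mul_one, tau_lam (T.d_notMem γ) h,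
    tau_lam (fun h' => T.d_notMem γ (inv_mem_iff.1 h')) h, smul_eq_mul]
  ring

theorem ss_ss (γ γ' : W) : Commute (ss T γ) (ss T γ') := by
  rcases lt_trichotomy γ γ' with h | rfl | h
  · exact ss_comm T (ss_mem T h)
  · rfl
  · exact (ss_comm T (ss_mem T h)).symm

/-- The product of the symmetries over a finite set of levels. -/
noncomputable def sA (A : Finset W) : L2 G →L[ℂ] L2 G :=
  A.noncommProd (ss T) fun _ _ _ _ _ => ss_ss T _ _

theorem sA_comm {A : Finset W} {ξ : W} (hA : ∀ β ∈ A, ξ ≤ β) (h : y ∈ NL (T.Qs ξ)) :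
    Commute y (sA T A) :=
  Finset.noncommProd_commute _ _ _ _ fun β hβ => ss_comm T (NL_mono (T.mono (hA β hβ)) h)

theorem sA_mem {A : Finset W} {ξ : W} (hA : ∀ β ∈ A, β < ξ) : sA T A ∈ NL (T.Qs ξ) :=
  Finset.noncommProd_induction _ _ _ (· ∈ NL (T.Qs ξ)) (fun _ _ => mul_mem) (one_mem _)
    fun β hβ => ss_mem T (hA β hβ)

theorem sA_sy (A : Finset W) : Sy (sA T A) := by
  induction A using Finset.induction_on with
  | empty => exact ⟨star_one _, one_mul _⟩
  | insert a A ha ih =>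
    rw [sA, Finset.noncommProd_insert_of_notMem _ _ _ _ ha]
    exact (ss_sy T a).mul ih (Finset.noncommProd_commute _ _ _ _ fun β _ => ss_ss T _ _)

theorem sA_split (A : Finset W) (ξ : W) :
    sA T A = sA T (A.filter (· < ξ)) * sA T (A.filter fun β => ¬ β < ξ) := by
  conv_lhs => rw [← Finset.filter_union_filter_not_eq (· < ξ) A]
  exact Finset.noncommProd_union_of_disjoint (Finset.disjoint_filter_filter_not _ _ _) _ _

theorem sA_tr {A : Finset W} (hA : A.Nonempty) : ‖vecState (dl 1) (sA T A)‖ ≤ 1 / 3 := by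
  have h1 : sA T (A.erase (A.max' hA)) * ss T (A.max' hA) = sA T A :=
    Finset.noncommProd_erase_mul A (A.max'_mem hA) _ _
  rw [← h1, ss_tr T (sA_mem T fun β hβ => A.lt_max'_of_mem_erase_max' hA hβ), norm_div,
    vecState_apply]
  have h2 := norm_inner_le_norm (𝕜 := ℂ) (dl (1 : G)) (sA T (A.erase (A.max' hA)) (dl 1))
  have h3 := (sA T (A.erase (A.max' hA))).le_opNorm (dl 1)
  have h4 := (sA_sy T (A.erase (A.max' hA))).norm_le
  rw [norm_dl] at h2 h3
  norm_num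
  linarith

theorem exists_tower (A : W → ℕ → Finset W) (h1 : ∀ ξ n, ∀ β ∈ A ξ n, β < ξ)
    (h2 : ∀ β ξ, β < ξ → ∀ᶠ n in atTop, β ∈ A ξ n)
    (h3 : ∀ η ξ, η ≤ ξ → ∀ᶠ n in atTop, (A ξ n).filter (· < η) = A η n) :
    ∃ (t : W → ℕ → L2 G →L[ℂ] L2 G) (v : ℕ → L2 G →L[ℂ] L2 G),
      (∀ ξ n, t ξ n ∈ NL (T.Qs ξ) ∧ Sy (t ξ n)) ∧ (∀ n, v n ∈ LG G ∧ Sy (v n)) ∧
      (∀ ξ ξ', ξ ≤ ξ' → ∀ᶠ n in atTop, ∀ y ∈ NL (T.Qs ξ),
        t ξ' n * y * t ξ' n = t ξ n * y * t ξ n) ∧
      (∀ ξ ξ', ξ < ξ' → ∀ᶠ n in atTop, ‖vecState (dl 1) (t ξ n * t ξ' n)‖ ≤ 1 / 3) ∧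
      ∀ ξ, Tendsto (fun n => ‖(t ξ n * v n * t ξ n + v n) (dl 1)‖) atTop (𝓝 0) := by
  choose u v P h using exists_inv T
  have cs : ∀ n, ∀ y ∈ NL (T.Λ n), ∀ B, Commute y (sA T B) := fun n y hy B =>
    Finset.noncommProd_commute _ _ _ _ fun β _ => ss_comm T (NL_mono (T.Λ_le n β) hy)
  have hm : ∀ ξ n, u n * sA T (A ξ n) ∈ NL (T.Qs ξ) := fun ξ n =>
    mul_mem (NL_mono (T.Λ_le n ξ) (h n).um) (sA_mem T (h1 ξ n))
  have hs : ∀ ξ n, Sy (u n * sA T (A ξ n)) := fun ξ n =>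
    (h n).us.mul (sA_sy T _) (cs n _ (h n).um _)
  refine ⟨fun ξ n => u n * sA T (A ξ n), v, fun ξ n => ⟨hm ξ n, hs ξ n⟩,
    fun n => ⟨NL_le (h n).vm, (h n).vs⟩, fun ξ ξ' hξ => (h3 ξ ξ' hξ).mono fun n hn y hy => ?_,
    fun ξ ξ' hξ => ((h3 ξ ξ' hξ.le).and (h2 ξ ξ' hξ)).mono fun n hn => ?_, fun ξ => ?_⟩
  · have c := fun z hz => sA_comm T (y := z) (A := (A ξ' n).filter fun β => ¬ β < ξ) (ξ := ξ)
      (fun β hβ => not_lt.1 (Finset.mem_filter.1 hβ).2) hz
    simp only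
    rw [sA_split T (A ξ' n) ξ, hn, ← mul_assoc (u n)]
    set r := sA T ((A ξ' n).filter fun β => ¬ β < ξ)
    set w := u n * sA T (A ξ n)
    calc w * r * y * (w * r) = w * (r * (y * w) * r) := by simp only [mul_assoc]
      _ = _ := by
        rw [← (c _ (mul_mem hy (hm ξ n))).eq, mul_assoc (y * w), (sA_sy T _).sq, mul_one,
          mul_assoc w]
  · simp only
    rw [sA_split T (A ξ' n) ξ, hn.1, ← mul_assoc (u n), ← mul_assoc, (hs ξ n).sq, one_mul]
    exact sA_tr T ⟨ξ, Finset.mem_filter.2 ⟨hn.2, lt_irrefl _⟩⟩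
  · have e : ∀ n, u n * sA T (A ξ n) * v n * (u n * sA T (A ξ n)) + v n = P n + P n := fun n => by
      have e1 : u n * sA T (A ξ n) * v n * (u n * sA T (A ξ n)) = u n * v n * u n := by
        calc _ = u n * (sA T (A ξ n) * (v n * u n) * sA T (A ξ n)) := by simp only [mul_assoc]
          _ = _ := by
            rw [← (cs n _ (mul_mem (h n).vm (h n).um) _).eq, mul_assoc (v n * u n), (sA_sy T _).sq,
              mul_one, mul_assoc]
      have e2 := congrArg (· * u n) (h n).uv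
      simp only [add_mul, (h n).Pu, mul_assoc (v n), (h n).us.sq, mul_one] at e2
      rw [e1, e2]
    have e3 : ∀ n, ‖P n (dl 1)‖ = √((1 / 2) ^ n) := fun n => by
      rw [← norm2_vecState, norm2, (h n).Ps, (h n).PP, (h n).tr]
      congr 1
      rw [show (1 / 2 : ℂ) = ((1 / 2 : ℝ) : ℂ) by simp, ← Complex.ofReal_pow, Complex.ofReal_re]
    have e4 := (tendsto_pow_atTop_nhds_zero_of_lt_one (r := (1 / 2 : ℝ)) (by norm_num)
      (by norm_num)).sqrt
    rw [Real.sqrt_zero] at e4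
    refine squeeze_zero (fun _ => norm_nonneg _) (fun n => ?_) (by simpa using e4.add e4)
    simp only [e]
    refine (norm_add_le _ _).trans (le_of_eq ?_)
    simp [e3]

end Pool.Agent.MP_82452b_an.H15
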