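import Pool.Agent.MP_82452b_an.H15.UInv0
import Pool.Agent.MP_82452b_an.H20.Fixed
import Pool.Agent.MP_82452b_an.H63.Coh

namespace Pool.Agent.MP_82452b_an.H8

open Filter Topology Pool.Agent.MP_755d6b_an.H98
open scoped InnerProductSpace

variable {K : Type} [NormedAddCommGroup K] [InnerProductSpace ℂ K] [CompleteSpace K]

/-- The ultrapower of the tower has an index 2 subfactor. -/
theorem TData.exists_indexTwo {W G : Type} [LinearOrder W] [WellFoundedLT W] [Uncountable W]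
    [Group G] (T : TData W G) (hc : ∀ γ : W, (Set.Iio γ).Countable) {U : Ultrafilter ℕ}
    (hU : (U : Filter ℕ) ≤ cofinite) {L : VonNeumannAlgebra K} {Ψ : K}
    {π : BddSeq (LG G) →⋆ₐ[ℂ] (K →L[ℂ] K)} (hL : IsUltrapower (LG G) (dl (1 : G)) U L Ψ π) :
    ∃ P : VonNeumannAlgebra K, IndexTwo P L Ψ := by
  obtain ⟨A, h1, h2, h3⟩ := exists_coherent W hc
  obtain ⟨S, v, a1, a2, a3, a4, a5, a6, a7, a8, a9⟩ :=
    H15.exists_involution T hc hU hL A h1 h2 h3
  exact indexTwo_of_involution hL.std a1 a2 a3 a4 a5 a6 a7 a8 a9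

end Pool.Agent.MP_82452b_an.H8
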