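import Pool.Agent.MP_82452b_an.H15.Tower

/-! The outer involution of the ultrapower. -/

namespace Pool.Agent.MP_82452b_an.H15

open Filter Topology Pool.Agent.MP_755d6b_an.H98 Pool.Agent.MP_82452b_an.H8
open scoped InnerProductSpace

variable {H : Type} [NormedAddCommGroup H] [InnerProductSpace ℂ H] [CompleteSpace H]
  {K : Type} [NormedAddCommGroup K] [InnerProductSpace ℂ K] [CompleteSpace K]

section Ultra

variable {M : VonNeumannAlgebra H} {Ω : H} {U : Ultrafilter ℕ} {L : VonNeumannAlgebra K} {Ψ : K}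
  {π : BddSeq M →⋆ₐ[ℂ] (K →L[ℂ] K)}

theorem up_norm (hL : IsUltrapower M Ω U L Ψ π) (x : BddSeq M) :
    Tendsto (fun i => ‖x.1 i Ω‖) U (𝓝 ‖π x Ψ‖) := by
  have h := ((Complex.continuous_re.tendsto _).comp (hL.trace (star x * x))).sqrt
  rw [map_mul, map_star] at h
  rw [← norm2_vecState]
  exact h.congr fun i => norm2_vecState Ω (x.1 i)

theorem up_zero (hL : IsUltrapower M Ω U L Ψ π) {x : BddSeq M}
    (h : Tendsto (fun i => ‖x.1 i Ω‖) U (𝓝 0)) : π x = 0 :=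
  hL.std.isSF.tv.sep _ ((hL.onto _).2 ⟨x, rfl⟩)
    (norm_eq_zero.1 (tendsto_nhds_unique (up_norm hL x) h))

theorem up_congr (hL : IsUltrapower M Ω U L Ψ π) {x y : BddSeq M}
    (h : ∀ᶠ i in (U : Filter ℕ), x.1 i = y.1 i) : π x = π y := by
  rw [← sub_eq_zero, ← map_sub]
  refine up_zero hL (tendsto_const_nhds.congr' (h.mono fun i hi => ?_))
  show 0 = ‖(x.1 i - y.1 i) Ω‖
  rw [hi, sub_self, zero_apply, norm_zero]

theorem up_sy {x : BddSeq M} (h : ∀ i, Sy (x.1 i)) : Sy (π x) :=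
  ⟨by rw [← map_star]; exact congrArg π (Subtype.ext (funext fun i => (h i).sa)),
    by rw [← map_mul, ← map_one π]; exact congrArg π (Subtype.ext (funext fun i => (h i).sq))⟩

end Ultra

/-- The limit of eventually constant inner automorphisms is implemented by a symmetry. -/
theorem exists_S {W : Type} [LinearOrder W] [Nonempty W] {L : VonNeumannAlgebra K} {Ψ : K}
    (h : IsSF L Ψ) (u : W → K →L[ℂ] K) (hu : ∀ ξ, u ξ ∈ L ∧ Sy (u ξ))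
    (hev : ∀ y ∈ L, ∃ z, ∀ᶠ ξ in atTop, u ξ * y * u ξ = z) :
    ∃ S : K →L[ℂ] K, S * S = 1 ∧ star S = S ∧ S Ψ = Ψ ∧
      ∀ y ∈ L, ∀ᶠ ξ in atTop, u ξ * y * u ξ = S * y * S := by
  choose! Θ hΘ using hev
  have hm : ∀ y ∈ L, Θ y ∈ L := fun y hy => by
    obtain ⟨ξ, hξ⟩ := (hΘ y hy).exists
    exact hξ ▸ mul_mem (mul_mem (hu ξ).1 hy) (hu ξ).1
  let f : L.toStarSubalgebra →ₗ[ℂ] K :=
    { toFun := fun y => Θ y.1 Ψ
      map_add' := fun x y => by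
        obtain ⟨ξ, h1, h2, h3⟩ :=
          ((hΘ _ x.2).and ((hΘ _ y.2).and (hΘ _ (add_mem x.2 y.2 : x.1 + y.1 ∈ L)))).exists
        show Θ (x.1 + y.1) Ψ = _
        rw [← h1, ← h2, ← h3, mul_add, add_mul, add_apply]
      map_smul' := fun c x => by
        obtain ⟨ξ, h1, h2⟩ := ((hΘ _ x.2).and (hΘ _ (smul_mem_vN c x.2))).exists
        show Θ (c • x.1) Ψ = _
        rw [← h1, ← h2, mul_smul_comm, smul_mul_assoc, smul_apply, RingHom.id_apply] }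
  let e : L.toStarSubalgebra →ₗ[ℂ] K :=
    { toFun := fun y => y.1 Ψ
      map_add' := fun _ _ => rfl
      map_smul' := fun _ _ => rfl }
  have hd : DenseRange e := h.dense.mono fun _ hx => by
    obtain ⟨x, hx, hx'⟩ := hx
    exact ⟨⟨x, hx⟩, hx'⟩
  have hn : ∀ y, ‖f y‖ ≤ 1 * ‖e y‖ := fun y => by
    obtain ⟨ξ, h1⟩ := (hΘ _ y.2).exists
    show ‖Θ y.1 Ψ‖ ≤ 1 * ‖y.1 Ψ‖
    have h2 := (hu ξ).2.norm_le
    have h3 := h.tv.norm_mul_right (x := y.1) y.2 (hu ξ).1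
    have h4 := (u ξ).le_opNorm (y.1 (u ξ Ψ))
    rw [← h1, mul_apply_eq_comp, mul_apply_eq_comp]
    nlinarith [norm_nonneg (y.1 Ψ), norm_nonneg (y.1 (u ξ Ψ))]
  set S := f.extendOfNorm e
  have hS : ∀ y ∈ L, S (y Ψ) = Θ y Ψ := fun y hy =>
    LinearMap.extendOfNorm_eq hd ⟨1, hn⟩ (⟨y, hy⟩ : L.toStarSubalgebra)
  have key : ∀ y ∈ L, S * y * S = Θ y := fun y hy => h.op_ext fun z hz => by
    obtain ⟨ξ, h1, h2, h3⟩ :=
      ((hΘ _ hy).and ((hΘ _ hz).and (hΘ _ (mul_mem hy (hm z hz))))).exists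
    rw [mul_apply_eq_comp, mul_apply_eq_comp, hS z hz, ← mul_apply_eq_comp y,
      hS _ (mul_mem hy (hm z hz)), ← h3, ← h2, ← h1, ← mul_apply_eq_comp]
    simp only [mul_assoc, (hu ξ).2.sq, mul_one]
  have h1 : Θ 1 = 1 := by
    obtain ⟨ξ, h1⟩ := (hΘ _ (one_mem L)).exists
    rw [← h1, mul_one, (hu ξ).2.sq]
  refine ⟨S, by rw [← h1, ← key 1 (one_mem L), mul_one], h.op_ext fun y hy =>
    ext_inner_left ℂ fun η => h.induction (p := fun η => ⟪η, star S (y Ψ)⟫_ℂ = ⟪η, S (y Ψ)⟫_ℂ)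
      (isClosed_eq (by fun_prop) (by fun_prop)) (fun z hz => ?_) η,
    by simpa [h1] using hS 1 (one_mem L), fun y hy => by rw [key y hy]; exact hΘ y hy⟩
  obtain ⟨ξ, h1, h2⟩ := ((hΘ _ hy).and (hΘ _ hz)).exists
  rw [inner_apply_star, hS y hy, hS z hz, ← h1, ← h2, ← vecState_star_mul, ← vecState_star_mul]
  have h3 := h.tv.isTrace.tracial _ (hu ξ).1 _
    (mul_mem (mul_mem (star_mem hz) (hu ξ).1) hy)
  simp only [star_mul, (hu ξ).2.sa, mul_assoc] at h3 ⊢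
  exact h3

theorem exists_bound {W : Type} [LinearOrder W] [Uncountable W]
    (hc : ∀ γ : W, (Set.Iio γ).Countable) {C : Set W} (hC : C.Countable) :
    ∃ ξ, ∀ γ ∈ C, γ < ξ := by
  by_contra h
  push Not at h
  refine Set.not_countable_univ ((hC.biUnion fun γ _ => (hc γ).insert γ).mono fun ξ _ => ?_)
  obtain ⟨γ, h1, h2⟩ := h ξ
  exact Set.mem_biUnion h1 (h2.eq_or_lt.imp id id)

theorem exists_level {W G : Type} [LinearOrder W] [Uncountable W] [Group G] (T : TData W G)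
    (hc : ∀ γ : W, (Set.Iio γ).Countable) (x : BddSeq (LG G)) :
    ∃ ξ, ∀ i, x.1 i ∈ NL (T.Qs ξ) := by
  choose c hc' using T.cover
  obtain ⟨ξ, hξ⟩ := exists_bound hc ((Set.countable_iUnion fun i =>
    (hasSum_sq (x.1 i (dl 1))).summable.countable_support).image c)
  refine ⟨ξ, fun i => mem_NL.2 ⟨x.2.1 i, fun g hg => ?_⟩⟩
  by_contra h0
  exact hg (T.mono (hξ _ ⟨g, Set.mem_iUnion.2 ⟨i, by simpa using h0⟩, rfl⟩).le (hc' g))

theorem exists_involution {W G : Type} [LinearOrder W] [Uncountable W]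
    [Group G] (T : TData W G) (hc : ∀ γ : W, (Set.Iio γ).Countable) {U : Ultrafilter ℕ}
    (hU : (U : Filter ℕ) ≤ cofinite) {L : VonNeumannAlgebra K} {Ψ : K}
    {π : BddSeq (LG G) →⋆ₐ[ℂ] (K →L[ℂ] K)} (hL : IsUltrapower (LG G) (dl (1 : G)) U L Ψ π)
    (A : W → ℕ → Finset W) (h1 : ∀ ξ n, ∀ β ∈ A ξ n, β < ξ)
    (h2 : ∀ β ξ, β < ξ → ∀ᶠ n in atTop, β ∈ A ξ n)
    (h3 : ∀ η ξ, η ≤ ξ → ∀ᶠ n in atTop, (A ξ n).filter (· < η) = A η n) :
    ∃ S v : K →L[ℂ] K, S * S = 1 ∧ star S = S ∧ S Ψ = Ψ ∧ (∀ y ∈ L, S * y * S ∈ L) ∧ v ∈ L ∧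
      v * v = 1 ∧ star v = v ∧ S * v * S = -v ∧
      ∀ w ∈ L, (∀ y ∈ L, w * y = S * y * S * w) → w = 0 := by
  rw [Nat.cofinite_eq_atTop] at hU
  obtain ⟨t, v, ht, hv, t2, t3, t4⟩ := exists_tower T A h1 h2 h3
  let tB : W → BddSeq (LG G) := fun ξ =>
    ⟨t ξ, fun n => NL_le (ht ξ n).1, 1, fun n => (ht ξ n).2.norm_le⟩
  let vB : BddSeq (LG G) := ⟨v, fun n => (hv n).1, 1, fun n => (hv n).2.norm_le⟩
  have mem : ∀ x, π x ∈ L := fun x => (hL.onto _).2 ⟨x, rfl⟩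
  have hsf := hL.std.isSF
  have hu : ∀ ξ, π (tB ξ) ∈ L ∧ Sy (π (tB ξ)) := fun ξ => ⟨mem _, up_sy fun n => (ht ξ n).2⟩
  have hev : ∀ ξ (x : BddSeq (LG G)), (∀ i, x.1 i ∈ NL (T.Qs ξ)) → ∀ᶠ ξ' in atTop,
      π (tB ξ') * π x * π (tB ξ') = π (tB ξ) * π x * π (tB ξ) := fun ξ x hx =>
    (eventually_ge_atTop ξ).mono fun ξ' hξ => by
      simp only [← map_mul]
      exact up_congr hL (((t2 ξ ξ' hξ).filter_mono hU).mono fun n hn => hn _ (hx n))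
  obtain ⟨S, s1, s2, s3, s4⟩ := exists_S hsf (fun ξ => π (tB ξ)) hu fun y hy => by
    obtain ⟨x, rfl⟩ := (hL.onto y).1 hy
    obtain ⟨ξ, hξ⟩ := exists_level T hc x
    exact ⟨_, hev ξ x hξ⟩
  have hvs : Sy (π vB) := up_sy fun n => (hv n).2
  refine ⟨S, π vB, s1, s2, s3, fun y hy => ?_, mem _, hvs.sq, hvs.sa, ?_, fun w hw h => ?_⟩
  · obtain ⟨ξ, hξ⟩ := (s4 y hy).exists
    exact hξ ▸ mul_mem (mul_mem (mem _) hy) (mem _)
  · obtain ⟨ξ, hξ⟩ := (s4 _ (mem vB)).exists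
    rw [← hξ, ← add_eq_zero_iff_eq_neg, ← map_mul, ← map_mul, ← map_add]
    exact up_zero hL ((t4 ξ).mono_left hU)
  obtain ⟨x, rfl⟩ := (hL.onto w).1 hw
  obtain ⟨ξ₀, hx⟩ := exists_level T hc x
  have key : ∀ γ, ∃ ξ, γ ≤ ξ ∧ (ξ₀ ≤ ξ → ∃ c : ℂ, π (tB ξ) * π x = c • 1) := fun γ => by
    obtain ⟨ξ, hγ, hξ⟩ := T.icc γ
    refine ⟨ξ, hγ, fun h0 => hsf.tv.scalar_of_le (mul_mem (mem _) hw) ?_⟩
    choose g hg1 hg2 using fun i =>
      gap_NL hξ (mul_mem (ht ξ i).1 (NL_mono (T.mono h0) (hx i)))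
    let gB : BddSeq (LG G) := ⟨fun i => lam (g i), fun i => lam_mem _, 1, fun i => opNorm_lam_le _⟩
    obtain ⟨ξ', e1, e2⟩ := ((hev ξ gB fun i => lam_mem_NL (hg1 i)).and (s4 _ (mem gB))).exists
    have e3 : π (gB * (tB ξ * x) - tB ξ * x * gB) = 0 := by
      rw [map_sub, map_mul, map_mul, map_mul, map_mul, mul_assoc, h _ (mem gB), ← e2, e1]
      simp only [← mul_assoc, (hu ξ).2.sq, one_mul, sub_self]
    have e4 := le_of_tendsto_of_tendsto' (((up_norm hL (tB ξ * x)).pow 2).sub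
      ((hL.trace (tB ξ * x)).norm.pow 2))
      (((up_norm hL (gB * (tB ξ * x) - tB ξ * x * gB)).pow 2).const_mul 4) hg2
    rw [e3, map_mul] at e4
    simpa using e4
  obtain ⟨ξ, a1, a2⟩ := key ξ₀
  obtain ⟨γ, hγ⟩ := exists_bound hc (Set.countable_singleton ξ)
  obtain ⟨ξ', a3, a4⟩ := key γ
  have hlt : ξ < ξ' := (hγ ξ rfl).trans_le a3
  obtain ⟨c, hc1⟩ := a2 a1
  obtain ⟨c', hc2⟩ := a4 (a1.trans hlt.le)
  have b1 : ‖vecState Ψ (π (tB ξ) * π (tB ξ'))‖ ≤ 1 / 3 := by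
    rw [← map_mul]
    exact le_of_tendsto (hL.trace (tB ξ * tB ξ')).norm ((t3 ξ ξ' hlt).filter_mono hU)
  have b2 : ∀ η (d : ℂ), π (tB η) * π x = d • 1 → π x = d • π (tB η) := fun η d hd => by
    rw [← one_mul (π x), ← (hu η).2.sq, mul_assoc, hd, mul_smul_comm, mul_one]
  have b3 := congrArg (fun z => ‖vecState Ψ z‖) hc1
  have b4 := congrArg (fun z => ‖vecState Ψ z‖) hc2
  simp only [b2 _ _ hc2, mul_smul_comm, map_smul, hsf.tv.isTrace.unital, norm_smul, norm_one] at b3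
  simp only [b2 _ _ hc1, mul_smul_comm, map_smul, hsf.tv.isTrace.unital, norm_smul, norm_one,
    hsf.tv.isTrace.tracial _ (mem (tB ξ')) _ (mem (tB ξ))] at b4
  have b5 : ‖c‖ = 0 := by nlinarith [norm_nonneg c, norm_nonneg c']
  rw [b2 _ _ hc1, norm_eq_zero.1 b5, zero_smul]

end Pool.Agent.MP_82452b_an.H15
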